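import Mathlib
import Pool.Agent.H.MP_0edd48_al.A

set_option autoImplicit false

namespace Pool.Agent.Results.MP_0edd48_al.Nontrivial

open FreeGroup (of)

/-- automorphisms of the free group acting trivially on the abelianization -/
def IA (n : ℕ) : Subgroup (MulAut (FreeGroup (Fin n))) where
  carrier := {φ | ∀ x, Abelianization.of (φ x) = Abelianization.of x}
  one_mem' := fun _ => rfl
  mul_mem' := fun {φ ψ} h k x => (h (ψ x)).trans (k x)
  inv_mem' := fun {φ} h x => (h (φ⁻¹ x)).symm.trans (congrArg _ (φ.apply_symm_apply x))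

/-- the subgroup generated by the automorphisms `K i j` -/
def C (n : ℕ) : Subgroup (MulAut (FreeGroup (Fin n))) :=
  Subgroup.closure {φ | ∃ i j : Fin n, i ≠ j ∧
    ∀ m, φ (of m) = if m = i then of j * of i * (of j)⁻¹ else of m}

/-- the subgroup generated by the automorphisms `K i j k` -/
def T (n : ℕ) : Subgroup (MulAut (FreeGroup (Fin n))) :=
  Subgroup.closure {φ | ∃ i j k : Fin n, i ≠ j ∧ j < k ∧ k ≠ i ∧
    ∀ m, φ (of m) = if m = i then of i * (of j * of k * (of j)⁻¹ * (of k)⁻¹) else of m}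

/-- the normal closure of `C n` in `IA n` -/
def Cbar (n : ℕ) : Subgroup (MulAut (FreeGroup (Fin n))) :=
  (Subgroup.normalClosure ((C n).subgroupOf (IA n) : Set (IA n))).map (IA n).subtype

theorem result (n : ℕ) (hn : 3 ≤ n) : Cbar n ⊓ T n ≠ ⊥ := by
  let i : Fin n := ⟨0, by omega⟩
  let j : Fin n := ⟨1, by omega⟩
  let k : Fin n := ⟨2, by omega⟩
  have hij : i < j := Fin.mk_lt_mk.2 (by omega)
  have hjk : j < k := Fin.mk_lt_mk.2 (by omega)
  have hik : i < k := hij.trans hjk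
  have e : ∀ (a b : Fin n) (u v : FreeGroup (Fin n)), a ≠ b →
      H.MP_0edd48_al.tv a u v (of b) = of b := fun a b u v h => by
    simp [H.MP_0edd48_al.tv, h.symm]
  have hI : ∀ {φ : MulAut (FreeGroup (Fin n))} {a : Fin n} {u v : FreeGroup (Fin n)},
      H.MP_0edd48_al.Sp φ a u v → Abelianization.of u * Abelianization.of v = 1 → φ ∈ IA n := by
    intro φ a u v h h1 x
    have : Abelianization.of.comp φ.toMonoidHom = Abelianization.of := by
      ext m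
      show Abelianization.of (φ (of m)) = Abelianization.of (of m)
      rw [h.1]
      split_ifs with h2
      · rw [map_mul, map_mul, mul_right_comm, h1, one_mul, h2]
      · rfl
    exact DFunLike.congr_fun this x
  have hK : ∀ a b : Fin n, a ≠ b → ∃ φ : IA n, H.MP_0edd48_al.Sp φ.1 a (of b) (of b)⁻¹ ∧
      (φ : IA n ⧸ Subgroup.normalClosure ((C n).subgroupOf (IA n) : Set (IA n))) = 1 := by
    intro a b h
    obtain ⟨φ, hφ⟩ := H.MP_0edd48_al.ex a (of b) (of b)⁻¹ (fun _ _ => e _ _ _ _ h)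
      (fun _ _ => by rw [map_inv, e _ _ _ _ h])
    exact ⟨⟨φ, hI hφ (by simp)⟩, hφ, (QuotientGroup.eq_one_iff _).2
      (Subgroup.subset_normalClosure (Subgroup.subset_closure ⟨a, b, h, hφ.1⟩))⟩
  have hM : ∀ a b c : Fin n, a ≠ b → b < c → c ≠ a → ∃ φ : IA n,
      H.MP_0edd48_al.Sp φ.1 a 1 (of b * of c * (of b)⁻¹ * (of c)⁻¹) ∧ φ.1 ∈ T n := by
    intro a b c h1 h2 h3
    obtain ⟨φ, hφ⟩ := H.MP_0edd48_al.ex a 1 (of b * of c * (of b)⁻¹ * (of c)⁻¹)
      (fun _ _ => map_one _)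
      (fun _ _ => by simp only [map_mul, map_inv, e _ _ _ _ h1, e _ _ _ _ h3.symm])
    exact ⟨⟨φ, hI hφ (by simp [mul_comm])⟩, hφ,
      Subgroup.subset_closure ⟨a, b, c, h1, h2, h3, fun m => by rw [hφ.1, one_mul]⟩⟩
  obtain ⟨p, p1, p2⟩ := hK i j hij.ne
  obtain ⟨q, q1, q2⟩ := hK i k hik.ne
  obtain ⟨r, r1, r2⟩ := hK k i hik.ne'
  obtain ⟨s, s1, s2⟩ := hK k j hjk.ne'
  obtain ⟨a, a1, a2⟩ := hM i j k hij.ne hjk hik.ne'
  obtain ⟨c, c1, c2⟩ := hM k i j hik.ne' hij hjk.ne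
  have h1 : 1 * s⁻¹ * a * s⁻¹ * a * q⁻¹ * c * p * q * a⁻¹ * s * r * p⁻¹ * c⁻¹ * r⁻¹ * q⁻¹ * p⁻¹ *
      c⁻¹ * q * a⁻¹ * s * r * c * p * r⁻¹ = 1 :=
    Subtype.ext (H.MP_0edd48_al.rel hij.ne hik.ne hjk.ne p1 q1 r1 s1 a1 c1)
  have h2 := congrArg (QuotientGroup.mk' (Subgroup.normalClosure
    ((C n).subgroupOf (IA n) : Set (IA n)))) h1
  simp only [map_mul, map_inv, QuotientGroup.mk'_apply, p2, q2, r2, s2, inv_one, mul_one] at h2
  intro h
  apply H.MP_0edd48_al.ne hij.ne hik.ne hjk.ne a1 c1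
  rw [← Subgroup.mem_bot, ← h]
  refine ⟨⟨1 * a * a * c * a⁻¹ * c⁻¹ * c⁻¹ * a⁻¹ * c, (QuotientGroup.eq_one_iff _).1 h2, rfl⟩, ?_⟩
  have a3 := (T n).inv_mem a2
  have c3 := (T n).inv_mem c2
  exact (T n).mul_mem ((T n).mul_mem ((T n).mul_mem ((T n).mul_mem ((T n).mul_mem ((T n).mul_mem
    ((T n).mul_mem ((T n).mul_mem (T n).one_mem a2) a2) c2) a3) c3) c3) a3) c2

end Pool.Agent.Results.MP_0edd48_al.Nontrivial
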